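import Pool.Agent.H44.EssDefs

open MeasureTheory SimpleGraph Pool.Agent.H44.FE

namespace Pool.Agent.Results.MP_b09029_pr.UniformFalse

lemma mkw {V : Type} {H : SimpleGraph V} (c : ℕ → V) (L : ℕ) (h : ∀ t < L, H.Adj (c t) (c (t + 1))) :
    ∃ w : H.Walk (c 0) (c L), w.support = (List.range (L + 1)).map c ∧
      w.edges = (List.range L).map fun t => s(c t, c (t + 1)) := by
  induction L with
  | zero => exact ⟨.nil, rfl, rfl⟩
  | succ L ih =>
    obtain ⟨w, h1, h2⟩ := ih fun t ht => h t (by omega)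
    refine ⟨w.concat (h L (by omega)), ?_, ?_⟩
    · rw [Walk.support_concat, h1, List.range_succ (n := L + 1)]; simp
    · rw [Walk.edges_concat, h2, List.range_succ (n := L)]; simp

lemma pot {V : Type} {H : SimpleGraph V} {ω : Sym2 V → ℝ} (φ : V → ℝ)
    (h : ∀ x y, H.Adj x y → φ y - φ x ≤ ω s(x, y)) {x y : V} (w : H.Walk x y) :
    φ y - φ x ≤ (w.edges.map ω).sum := by
  induction w with
  | nil => simp
  | cons a w ih => simp only [Walk.edges_cons, List.map_cons, List.sum_cons]; linarith [h _ _ a]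

lemma cs {a b : ℤ} (c : ℤ) {r : ℝ} (hr : r = c) (h : a - b ≤ c) : (a : ℝ) - b ≤ r := by
  rw [hr]; exact_mod_cast h

variable {n : ℕ}

def pt (n : ℕ) (a b : ℤ) : Vx 2 n :=
  ![⟨max 0 (min a n), by constructor <;> omega⟩, ⟨max 0 (min b n), by constructor <;> omega⟩]

lemma adj {x y : Vx 2 n} : (G 2 n).Adj x y ↔ ((x 0 : ℤ) - y 0).natAbs + ((x 1 : ℤ) - y 1).natAbs = 1 := by
  simp only [G, Fin.sum_univ_two, ← Int.natCast_natAbs]
  omega

lemma pt_eq {a b : ℤ} {x : Vx 2 n} : pt n a b = x ↔ max 0 (min a n) = x 0 ∧ max 0 (min b n) = x 1 := by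
  simp [funext_iff, Fin.forall_fin_two, pt, Subtype.ext_iff]

lemma pt0 (a b : ℤ) : (pt n a b 0 : ℤ) = max 0 (min a n) := rfl

lemma pt1 (a b : ℤ) : (pt n a b 1 : ℤ) = max 0 (min b n) := rfl

lemma f_le {x y : Vx 2 n} (ω : Sym2 (Vx 2 n) → ℝ) (γ : (G 2 n).Path x y) : f x y ω ≤ T ω γ := by
  classical
  exact ciInf_le (Set.finite_range _).bddBelow γ

lemma avoid (hn : 1 ≤ n) {ω : Sym2 (Vx 2 n) → ℝ} (h : ∀ e, ω e = 1 ∨ ω e = 3) :
    ω ∉ Ess (pt n 0 0) (pt n n 0) s(pt n 0 n, pt n 1 n) := by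
  classical
  obtain ⟨w, h1, h2⟩ := mkw (H := G 2 n) (fun t => pt n t 0) n fun t ht => by
    rw [adj]; simp only [pt0, pt1]; omega
  have hp : w.IsPath := by
    rw [Walk.isPath_def, h1]
    refine List.nodup_range.map_on fun s hs t ht e => ?_
    rw [pt_eq, pt0] at e
    simp only [List.mem_range] at hs ht
    omega
  have hT : T ω ⟨w, hp⟩ ≤ 3 * n := by
    refine (List.sum_le_card_nsmul _ 3 fun x hx => ?_).trans (by simp [h2, mul_comm])
    obtain ⟨e, -, rfl⟩ := List.mem_map.1 hx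
    rcases h e with h | h <;> linarith
  have : Nonempty ((G 2 n).Path (pt n 0 0) (pt n n 0)) := ⟨⟨w, hp⟩⟩
  obtain ⟨γ, hγ⟩ := exists_eq_ciInf_of_finite (f := fun γ : (G 2 n).Path (pt n 0 0) (pt n n 0) => T ω γ)
  intro hE
  have hu := Walk.fst_mem_support_of_mem_edges _ (hE γ hγ)
  have h3 : ∀ e, 1 ≤ ω e := fun e => by rcases h e with h | h <;> linarith
  have h4 := pot (fun z => ((z 1 : ℤ) : ℝ)) (fun x y a => le_trans (by
    rw [adj] at a; norm_cast; omega) (h3 _)) (γ.1.takeUntil _ hu)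
  have h5 := pot (fun z => ((z 0 - z 1 : ℤ) : ℝ)) (fun x y a => le_trans (by
    rw [adj] at a; norm_cast; omega) (h3 _)) (γ.1.dropUntil _ hu)
  have h6 : 3 * n ≤ T ω γ := by
    rw [T, ← γ.1.take_spec hu, Walk.edges_append, List.map_append, List.sum_append]
    simp [pt0, pt1] at h4 h5
    linarith
  have h7 := Walk.fst_mem_support_of_mem_edges _
    (hE ⟨w, hp⟩ (le_antisymm (hT.trans (h6.trans_eq hγ)) (f_le _ _)))
  rw [h1] at h7
  obtain ⟨t, -, ht⟩ := List.mem_map.1 h7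
  rw [pt_eq, pt1] at ht
  omega

lemma semi (hn : 1 ≤ n) : ∃ ω : Sym2 (Vx 2 n) → ℝ, (∀ e, ω e = 1 ∨ ω e = 3) ∧
    ω ∈ Semi (pt n 0 0) (pt n n 0) s(pt n 0 n, pt n 1 n) := by
  classical
  obtain ⟨w, h1, h2⟩ := mkw (H := G 2 n) (fun t => pt n (t - n) (min t (3 * n - t))) (3 * n)
    fun t ht => by rw [adj]; simp only [pt0, pt1]; omega
  have e0 : pt n ((0 : ℕ) - n) (min (0 : ℕ) (3 * n - (0 : ℕ))) = pt n 0 0 := by
    rw [pt_eq, pt0, pt1]; omega
  have e1 : pt n ((3 * n : ℕ) - n) (min (3 * n : ℕ) (3 * n - (3 * n : ℕ))) = pt n n 0 := by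
    rw [pt_eq, pt0, pt1]; omega
  have hp : (w.copy e0 e1).IsPath := by
    rw [Walk.isPath_copy, Walk.isPath_def, h1]
    refine List.nodup_range.map_on fun s hs t ht e => ?_
    rw [pt_eq, pt0, pt1] at e
    simp only [List.mem_range] at hs ht
    omega
  have : Nonempty ((G 2 n).Path (pt n 0 0) (pt n n 0)) := ⟨⟨_, hp⟩⟩
  refine ⟨fun e => if e ∈ w.edges then 1 else 3, fun e => by dsimp only; split_ifs <;> simp,
    ⟨_, hp⟩, le_antisymm (le_ciInf fun γ => ?_) (f_le _ _), ?_⟩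
  · refine le_trans ?_ (pot (fun z => ((min (z 1 + 3 * z 0) (2 * n + z 0 - z 1) : ℤ) : ℝ))
      (fun x y a => ?_) γ.1)
    · refine (List.sum_le_card_nsmul _ 1 fun x hx => ?_).trans ?_
      · obtain ⟨e, he, rfl⟩ := List.mem_map.1 hx
        rw [Walk.edges_copy] at he
        simp [he]
      · simp only [List.length_map, Walk.edges_copy, h2, List.length_range, pt0, pt1, nsmul_eq_mul]
        rw [show min (max 0 (min 0 (n : ℤ)) + 3 * max 0 (min (n : ℤ) n)) (2 * n + max 0 (min (n : ℤ) n)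
          - max 0 (min 0 (n : ℤ))) = 3 * n by omega, show min (max 0 (min 0 (n : ℤ)) + 3 * max 0
          (min 0 (n : ℤ))) (2 * n + max 0 (min 0 (n : ℤ)) - max 0 (min 0 (n : ℤ))) = 0 by omega]
        simp
    · split_ifs with he
      · rw [h2] at he
        obtain ⟨t, ht, he⟩ := List.mem_map.1 he
        simp only [List.mem_range] at ht
        rcases Sym2.eq_iff.1 he with ⟨rfl, rfl⟩ | ⟨rfl, rfl⟩ <;> simp only [pt0, pt1] <;>
          refine cs 1 (by norm_num) ?_ <;> omega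
      · rw [adj] at a
        exact cs 3 (by norm_num) (by omega)
  · rw [Walk.edges_copy, h2]
    refine List.mem_map.2 ⟨n, List.mem_range.2 (by omega), ?_⟩
    refine Sym2.eq_iff.2 (.inl ⟨?_, ?_⟩) <;> rw [pt_eq, pt0, pt1] <;> omega

theorem result (p : ℝ) (hp : p ∈ Set.Ioo (0 : ℝ) 1) (n : ℕ) (hn : 1 ≤ n) (x y : Vx 2 n)
    (hx : ∀ i, (x i : ℤ) = 0) (hy : ∀ i, (y i : ℤ) = n * ![1, 0] i) :
    ∃ j ∈ (G 2 n).edgeSet, 0 < P 2 n 1 3 p (Semi x y j) ∧ P 2 n 1 3 p (Ess x y j) = 0 ∧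
      P 2 n 1 3 p (Very 1 3 x y j) = 0 := by
  classical
  have : IsProbabilityMeasure (ENNReal.ofReal p • Measure.dirac (1 : ℝ) +
      ENNReal.ofReal (1 - p) • Measure.dirac (3 : ℝ)) :=
    ⟨by simp [← ENNReal.ofReal_add hp.1.le (sub_nonneg.2 hp.2.le)]⟩
  obtain rfl : pt n 0 0 = x := pt_eq.2 (by simp [hx])
  obtain rfl : pt n n 0 = y := pt_eq.2 (by simp [hy])
  have h0 : ∀ A : Set (Sym2 (Vx 2 n) → ℝ), (∀ ω, (∀ e, ω e = 1 ∨ ω e = 3) → ω ∉ A) →
      P 2 n 1 3 p A = 0 := fun A hA => by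
    refine measure_mono_null (t := ⋃ e, Function.eval e ⁻¹' {1, 3}ᶜ) (fun ω h => ?_)
      (measure_iUnion_null fun e => Measure.pi_eval_preimage_null _ (by simp))
    by_contra hc
    exact hA ω (fun e => by simpa [or_iff_not_imp_left] using (not_exists.1 (mt Set.mem_iUnion.2 hc) e)) h
  refine ⟨s(pt n 0 n, pt n 1 n), ?_, ?_, h0 _ fun ω h => avoid hn h, h0 _ fun ω h hV => ?_⟩
  · rw [mem_edgeSet, adj]; simp only [pt0, pt1]; omega
  · obtain ⟨ω, h1, h2⟩ := semi hn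
    refine lt_of_lt_of_le ?_ (measure_mono (Set.singleton_subset_iff.2 h2))
    rw [P, Measure.pi_singleton, pos_iff_ne_zero, Finset.prod_ne_zero_iff]
    intro e _
    rcases h1 e with h | h <;> simp [h, hp.1, hp.2]
  · have h1 := avoid hn (ω := Function.update ω s(pt n 0 n, pt n 1 n) 1) fun e => by
      by_cases he : e = s(pt n 0 n, pt n 1 n)
      · simp [he]
      · simpa [he] using h e
    simp only [Ess, Set.mem_ofPred_eq, not_forall] at h1
    obtain ⟨γ, h2, h3⟩ := h1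
    have h4 := f_le (Function.update ω s(pt n 0 n, pt n 1 n) 3) γ
    have h5 : T (Function.update ω s(pt n 0 n, pt n 1 n) 3) γ =
        T (Function.update ω s(pt n 0 n, pt n 1 n) 1) γ :=
      congrArg List.sum (List.map_congr_left fun e he => by
        have : e ≠ s(pt n 0 n, pt n 1 n) := fun h => h3 (h ▸ he)
        simp [this])
    simp only [Very, Set.mem_ofPred_eq] at hV
    linarith

end Pool.Agent.Results.MP_b09029_pr.UniformFalse
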